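import Pool.Agent.LeoD.TowStmts
import Pool.Agent.Helper84_LeoD.Apt
import Pool.Agent.Helper79_LeoK.TwiB

/-!
# Module APTI of squad LEOD: the element `y` and its ideal
-/

set_option autoImplicit false

open NumberField IsDedekindDomain Module Filter Topology
open Pool.Agent.Helper85_Leo Pool.Agent.LeoK Pool.Agent.LeoG Pool.Agent.LeoC Pool.Agent.LeoD
open Pool.Agent.Leo3 (Om InLoc FixF)
open Pool.Agent.LeoD.H71 Pool.Agent.LeoD.H84

namespace Pool.Agent.LeoD.H32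

variable {k K : Type} [Field k] [NumberField k] [Field K] [NumberField K] [Algebra k K]
  {m : 𝓞 k} {s : 𝓞 K} {c : K ≃ₐ[k] K}

/-- The local data at one prime. -/
theorem loc_T (ltt : LttStmt) (h : QExt k K m s c) (φ : K →+* Om) {ω τ : Om} (hω : ω ^ 2 = -3)
    (hτ : Gen (φ.comp (algebraMap k K)) ω τ) (z : K) (ν : k) (hν : ν ≠ 0)
    (hz : z * c z = algebraMap k K ν ^ 3) (hl : LocTor z) :
    ∃ A B T : Om, InLoc (φ.comp (algebraMap k K)) A ∧ InLoc (φ.comp (algebraMap k K)) B ∧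
      (A + B * φ s) * (A - B * φ s) * φ (algebraMap k K ν) = 1 ∧ ‖T‖ = 1 ∧
      φ z * (A + B * φ s) ^ 3 = T ∧ φ (c z) * (A - B * φ s) ^ 3 = T⁻¹ ∧
      (T = 1 ∨ ∃ μ : Om, InLoc (φ.comp (algebraMap k K)) μ ∧
        μ ^ 2 = -φ (algebraMap k K (m : k)) ∧
        3 * μ * (T - (τ + τ⁻¹) / 2) = 3 * (τ - τ⁻¹) / (2 * ω) * φ s ∧
        3 * μ * (T⁻¹ - (τ + τ⁻¹) / 2) = -(3 * (τ - τ⁻¹) / (2 * ω) * φ s)) := by
  obtain ⟨A, B, hA, hB, hAB, hc⟩ := ltt k K m s c h φ ω τ hω hτ z ν hν hz hl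
  have hω0 : ω ≠ 0 := by
    intro h0
    rw [h0] at hω
    norm_num at hω
  have h2 : (2 : Om) ≠ 0 := two_ne_zero
  have h3 : (3 : Om) ≠ 0 := three_ne_zero
  have hzz : φ z * φ (c z) = φ (algebraMap k K ν) ^ 3 := by
    rw [← map_mul, hz, map_pow]
  have hTT : (φ z * (A + B * φ s) ^ 3) * (φ (c z) * (A - B * φ s) ^ 3) = 1 := by
    have e : (φ z * (A + B * φ s) ^ 3) * (φ (c z) * (A - B * φ s) ^ 3) =
        (φ z * φ (c z)) * ((A + B * φ s) * (A - B * φ s)) ^ 3 := by ring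
    rw [e, hzz, ← mul_pow, mul_comm, hAB, one_pow]
  have hT' : φ (c z) * (A - B * φ s) ^ 3 = (φ z * (A + B * φ s) ^ 3)⁻¹ :=
    (inv_eq_of_mul_eq_one_right hTT).symm
  refine ⟨A, B, _, hA, hB, hAB, ?_, rfl, hT', ?_⟩
  · rcases hc with ⟨h4, _⟩ | ⟨μ, hμ, hμ2, h4, h5⟩
    · rw [h4, norm_one]
    · -- `T = τ` or `T = τ⁻¹`
      have hτn : ‖τ‖ = 1 := norm_one_of_root hτ.1.ord
      have hτ0 : τ ≠ 0 := by
        intro h0
        rw [h0, norm_zero] at hτn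
        exact zero_ne_one hτn
      have hs2 : φ (s : K) ^ 2 = (μ * ω) ^ 2 := by
        have h5 : φ ((s : K) ^ 2) = φ (algebraMap k K (3 * (m : k))) := by rw [h.sq]
        rw [map_pow, map_mul, map_mul, map_ofNat, map_ofNat] at h5
        rw [h5, mul_pow, hω, hμ2]
        ring
      have hφs : φ (s : K) ≠ 0 := by
        rw [Ne, map_eq_zero]
        exact s_ne h
      have hμ0 : μ ≠ 0 := by
        intro h0
        rw [h0, zero_mul] at hs2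
        exact hφs (by simpa using hs2)
      have h3μ : 3 * μ ≠ 0 := mul_ne_zero h3 hμ0
      rcases sq_eq_sq_iff_eq_or_eq_neg.1 hs2 with h6 | h6
      · have h7 : φ z * (A + B * φ s) ^ 3 = τ := by
          apply mul_left_cancel₀ h3μ
          have h8 : 3 * μ * (φ z * (A + B * φ s) ^ 3) =
              3 * μ * (φ z * (A + B * φ s) ^ 3 - (τ + τ⁻¹) / 2) + 3 * μ * ((τ + τ⁻¹) / 2) := by
            ring
          rw [h8, h4, h6]
          field_simp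
          ring
        rw [h7, hτn]
      · have h7 : φ z * (A + B * φ s) ^ 3 = τ⁻¹ := by
          apply mul_left_cancel₀ h3μ
          have h8 : 3 * μ * (φ z * (A + B * φ s) ^ 3) =
              3 * μ * (φ z * (A + B * φ s) ^ 3 - (τ + τ⁻¹) / 2) + 3 * μ * ((τ + τ⁻¹) / 2) := by
            ring
          rw [h8, h4, h6]
          field_simp
          ring
        rw [h7, norm_inv, hτn, inv_one]
  · rcases hc with ⟨h4, _⟩ | ⟨μ, hμ, hμ2, h4, h5⟩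
    · exact Or.inl h4
    · right
      refine ⟨μ, hμ, hμ2, h4, ?_⟩
      rw [← hT']
      exact h5

/-- Continuity. -/
theorem near (a a' u u' v : Om) (M : ℕ) : ∀ᶠ N : ℕ in atTop, ∀ x x' : Om,
    ‖x - a‖ ≤ (3 : ℝ)⁻¹ ^ N → ‖x' - a'‖ ≤ (3 : ℝ)⁻¹ ^ N →
    ‖u * x ^ 3 - u * a ^ 3‖ ≤ (3 : ℝ)⁻¹ ^ M ∧ ‖u' * x' ^ 3 - u' * a' ^ 3‖ ≤ (3 : ℝ)⁻¹ ^ M ∧
      ‖x * x' * v - a * a' * v‖ ≤ (3 : ℝ)⁻¹ ^ M := by
  have hM : (0 : ℝ) < (3 : ℝ)⁻¹ ^ M := by positivity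
  have c1 : ContinuousAt (fun x : Om => u * x ^ 3) a :=
    (continuous_const.mul (continuous_id.pow 3)).continuousAt
  have c2 : ContinuousAt (fun x : Om => u' * x ^ 3) a' :=
    (continuous_const.mul (continuous_id.pow 3)).continuousAt
  have c3 : ContinuousAt (fun x : Om × Om => x.1 * x.2 * v) (a, a') :=
    ((continuous_fst.mul continuous_snd).mul continuous_const).continuousAt
  obtain ⟨δ1, hδ1, e1⟩ := Metric.continuousAt_iff.1 c1 _ hM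
  obtain ⟨δ2, hδ2, e2⟩ := Metric.continuousAt_iff.1 c2 _ hM
  obtain ⟨δ3, hδ3, e3⟩ := Metric.continuousAt_iff.1 c3 _ hM
  have ht : Tendsto (fun N : ℕ => (3 : ℝ)⁻¹ ^ N) atTop (𝓝 0) :=
    tendsto_pow_atTop_nhds_zero_of_lt_one (by norm_num) (by norm_num)
  filter_upwards [ht.eventually (gt_mem_nhds hδ1), ht.eventually (gt_mem_nhds hδ2),
    ht.eventually (gt_mem_nhds hδ3)] with N h1 h2 h3 x x' hx hx'
  refine ⟨?_, ?_, ?_⟩
  · have := e1 (x := x) (by rw [dist_eq_norm]; exact hx.trans_lt h1)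
    rw [dist_eq_norm] at this
    exact this.le
  · have := e2 (x := x') (by rw [dist_eq_norm]; exact hx'.trans_lt h2)
    rw [dist_eq_norm] at this
    exact this.le
  · have := e3 (x := (x, x')) (by
      rw [Prod.dist_eq, dist_eq_norm, dist_eq_norm]
      exact max_lt (hx.trans_lt h3) (hx'.trans_lt h3))
    rw [dist_eq_norm] at this
    exact this.le

theorem exists_three (k : Type) [Field k] [NumberField k] :
    ∃ p : HeightOneSpectrum (𝓞 k), (3 : 𝓞 k) ∈ p.asIdeal := by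
  have h1 : ¬ IsUnit (3 : 𝓞 k) := by
    intro hu
    obtain ⟨u, hu⟩ := hu.exists_right_inv
    have h2 : (3 : k) * (u : k) = 1 := by
      have h3 := congrArg (fun x : 𝓞 k => (x : k)) hu
      exact h3
    have h4 : (u : k) = algebraMap ℚ k (1 / 3) := by
      have h30 : (3 : k) ≠ 0 := by norm_num
      apply mul_left_cancel₀ h30
      rw [h2, map_div₀, map_one, map_ofNat]
      field_simp
    have h5 : IsIntegral ℤ (1 / 3 : ℚ) := by
      have h6 : IsIntegral ℤ (u : k) := u.isIntegral_coe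
      rw [h4] at h6
      exact (isIntegral_algebraMap_iff (algebraMap ℚ k).injective).1 h6
    obtain ⟨n, hn⟩ := IsIntegrallyClosed.isIntegral_iff.1 h5
    have h7 : (3 * n : ℤ) = 1 := by
      have h8 : ((3 * n : ℤ) : ℚ) = 1 := by
        push_cast
        have : ((n : ℤ) : ℚ) = 1 / 3 := hn
        rw [this]
        norm_num
      exact_mod_cast h8
    omega
  obtain ⟨P, hP, h3P⟩ := Ideal.exists_le_maximal (Ideal.span {(3 : 𝓞 k)})
    (by rwa [Ne, Ideal.span_singleton_eq_top])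
  have h3 : (3 : 𝓞 k) ∈ P := h3P (Ideal.mem_span_singleton_self _)
  have h30 : (3 : 𝓞 k) ≠ 0 := by exact_mod_cast (by norm_num : (3 : ℕ) ≠ 0)
  exact ⟨⟨P, hP.isPrime, fun h0 => h30 (by rw [h0] at h3; exact h3)⟩, h3⟩

theorem norm_one_of_close {a b : Om} (hb : ‖b‖ = 1) (hab : ‖a - b‖ < 1) : ‖a‖ = 1 := by
  apply le_antisymm
  · have e : a = (a - b) + b := by ring
    rw [e]
    exact close_add hab.le hb.le
  · by_contra hcon
    rw [not_le] at hcon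
    have e : b = -(a - b) + a := by ring
    have h1 : ‖b‖ < 1 := by
      rw [e]
      refine lt_of_le_of_lt (IsUltrametricDist.norm_add_le_max _ _) (max_lt ?_ hcon)
      rwa [norm_neg]
    rw [hb] at h1
    exact lt_irrefl _ h1

theorem om_three_eq : ‖(3 : Om)‖ = (3 : ℝ)⁻¹ := by
  have h1 : (3 : Om) = algebraMap ℚ_[3] Om (3 : ℚ_[3]) :=
    (map_ofNat (algebraMap ℚ_[3] Om) 3).symm
  rw [h1, PadicAlgCl.norm_extends]
  have h2 := Padic.norm_p (p := 3)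
  simpa using h2

theorem om_int (n : ℤ) : ‖(n : Om)‖ ≤ 1 := by
  have h1 : (n : Om) = algebraMap ℚ_[3] Om (n : ℚ_[3]) :=
    (map_intCast (algebraMap ℚ_[3] Om) n).symm
  rw [h1, PadicAlgCl.norm_extends]
  exact Padic.norm_int_le_one n

theorem om_close (n N : ℕ) (h : (3 : ℤ) ^ N ∣ (n : ℤ) - 1) : ‖(n : Om) - 1‖ ≤ (3 : ℝ)⁻¹ ^ N := by
  obtain ⟨l, hl⟩ := h
  have e : (n : Om) - 1 = (3 : Om) ^ N * (l : Om) := by
    have h1 : (((n : ℤ) - 1 : ℤ) : Om) = (((3 : ℤ) ^ N * l : ℤ) : Om) := by rw [hl]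
    push_cast at h1
    exact h1
  rw [e, norm_mul, norm_pow, om_three_eq]
  calc (3 : ℝ)⁻¹ ^ N * ‖(l : Om)‖ ≤ (3 : ℝ)⁻¹ ^ N * 1 :=
        mul_le_mul_of_nonneg_left (om_int l) (by positivity)
    _ = _ := mul_one _

/-- Valuations at the primes above 3. -/
theorem val_above (int : IntStmt) (h : QExt k K m s c) (ψ : HeightOneSpectrum (𝓞 k) → (k →+* Om))
    (φ : HeightOneSpectrum (𝓞 k) → (K →+* Om)) (hφ : ∀ p, (φ p).comp (algebraMap k K) = ψ p)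
    (hov : ∀ p : HeightOneSpectrum (𝓞 k), (3 : 𝓞 k) ∈ p.asIdeal → Ov p (ψ p)) (y : K)
    (hy : ∀ p : HeightOneSpectrum (𝓞 k), (3 : 𝓞 k) ∈ p.asIdeal →
      ‖φ p y‖ ≤ 1 ∧ ‖φ p (c y)‖ ≤ 1) (P : HeightOneSpectrum (𝓞 K))
    (hP : (3 : 𝓞 K) ∈ P.asIdeal) : P.valuation K y ≤ 1 := by
  have hmem : (3 : 𝓞 k) ∈ P.asIdeal.comap (algebraMap (𝓞 k) (𝓞 K)) := by
    rw [Ideal.mem_comap, map_ofNat]
    exact hP
  have h30 : (3 : 𝓞 k) ≠ 0 := by exact_mod_cast (by norm_num : (3 : ℕ) ≠ 0)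
  have hPp := P.isPrime
  obtain ⟨p, hp⟩ : ∃ p : HeightOneSpectrum (𝓞 k),
      p.asIdeal = P.asIdeal.comap (algebraMap (𝓞 k) (𝓞 K)) :=
    ⟨⟨P.asIdeal.comap (algebraMap (𝓞 k) (𝓞 K)), Ideal.comap_isPrime _ _,
      fun h0 => h30 (by rw [h0] at hmem; exact hmem)⟩, rfl⟩
  have h3 : (3 : 𝓞 k) ∈ p.asIdeal := by rw [hp]; exact hmem
  obtain ⟨h1, h2⟩ := hy p h3
  obtain ⟨d, w, hd, hw⟩ := (int k K m s c h p (φ p) h3 (by rw [hφ]; exact hov p h3)).1 y h1 h2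
  have hd' : algebraMap (𝓞 k) (𝓞 K) d ∉ P.asIdeal := by
    intro h4
    apply hd
    rw [hp, Ideal.mem_comap]
    exact h4
  have h4 : P.valuation K ((algebraMap (𝓞 k) (𝓞 K) d : 𝓞 K) : K) = 1 :=
    Pool.Agent.LeoG.H24.val_one P hd'
  have h5 : ((algebraMap (𝓞 k) (𝓞 K) d : 𝓞 K) : K) = algebraMap k K (d : k) := rfl
  have h6 : P.valuation K (w : K) ≤ 1 := P.valuation_le_one (K := K) w
  rw [← hw, map_mul, ← h5, h4, one_mul] at h6
  exact h6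

/-- APTI. -/
theorem apti (ltt : LttStmt) (wap : WapStmt) (apit : ApitStmt) (tau : TauStmt) (apo : ApoStmt)
    (int : IntStmt) (phi : PhiStmt) : AptiStmt := by
  intro k _ _ M
  obtain ⟨ω, hω⟩ := om_exists
  have h1 : ∀ p : HeightOneSpectrum (𝓞 k), ∃ (ψ : k →+* Om) (τ : Om) (P Q : 𝓞 k),
      (3 : 𝓞 k) ∈ p.asIdeal → Ov p ψ ∧ Gen ψ ω τ ∧ 3 * P ^ 2 + Q ^ 2 - 3 ∈ p.asIdeal ^ M ∧
      ‖ψ (P : k) - (τ + τ⁻¹) / 2‖ ≤ (3 : ℝ)⁻¹ ^ M ∧
      ‖ψ (Q : k) - 3 * (τ - τ⁻¹) / (2 * ω)‖ ≤ (3 : ℝ)⁻¹ ^ M := by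
    intro p
    by_cases h3 : (3 : 𝓞 k) ∈ p.asIdeal
    · obtain ⟨ψ, hψ⟩ := exists_ov phi k p h3
      obtain ⟨τ, hτ⟩ := tau k ψ ω
      obtain ⟨P, Q, h4, h5, h6⟩ := exists_PQ apo p h3 ψ hψ hω hτ.1 M
      exact ⟨ψ, τ, P, Q, fun _ => ⟨hψ, hτ, h4, h5, h6⟩⟩
    · obtain ⟨ψ⟩ : Nonempty (k →+* Om) := by
        have : CharZero Om := charZero_of_injective_algebraMap (algebraMap ℚ_[3] Om).injective
        let _ : Algebra ℚ Om := DivisionRing.toRatAlgebra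
        exact ⟨((IsAlgClosed.lift : k →ₐ[ℚ] Om) : k →+* Om)⟩
      exact ⟨ψ, 1, 1, 1, fun h => absurd h h3⟩
  choose ψ τ P Q hp using h1
  refine ⟨P, Q, fun p h3 => (hp p h3).2.2.1, ?_⟩
  intro K _ _ _ m s c h hWT
  have hs0 : (s : K) ≠ 0 := s_ne h
  have hc1 : c ≠ 1 := by
    intro h2
    have h4 := h.conj
    rw [h2, AlgEquiv.one_apply] at h4
    exact hs0 (self_eq_neg.1 h4)
  have hinj : Function.Injective (algebraMap k K) := (algebraMap k K).injective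
  -- the element `z`
  unfold WT at hWT
  push Not at hWT
  obtain ⟨z, hz0, ⟨c0, hc0⟩, hval, hlt, hcube⟩ := hWT
  have hz : z * c z = algebraMap k K c0 ^ 3 := by
    rw [← Pool.Agent.LeoK.H79.quad_norm h.two c hc1 z, hc0, map_pow]
  have hcz0 : c z ≠ 0 := by
    rw [Ne, map_eq_zero_iff c c.injective]
    exact hz0
  have hc00 : c0 ≠ 0 := by
    intro h0
    rw [h0, map_zero, zero_pow (by norm_num)] at hz
    exact mul_ne_zero hz0 hcz0 hz
  -- local data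
  have h5 : ∀ p : HeightOneSpectrum (𝓞 k), ∃ (φ : K →+* Om) (A B T : Om),
      φ.comp (algebraMap k K) = ψ p ∧ ((3 : 𝓞 k) ∈ p.asIdeal →
      InLoc (φ.comp (algebraMap k K)) A ∧ InLoc (φ.comp (algebraMap k K)) B ∧
      (A + B * φ s) * (A - B * φ s) * φ (algebraMap k K c0) = 1 ∧ ‖T‖ = 1 ∧
      φ z * (A + B * φ s) ^ 3 = T ∧ φ (c z) * (A - B * φ s) ^ 3 = T⁻¹ ∧
      (T = 1 ∨ ∃ μ : Om, InLoc (φ.comp (algebraMap k K)) μ ∧
        μ ^ 2 = -φ (algebraMap k K (m : k)) ∧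
        3 * μ * (T - (τ p + (τ p)⁻¹) / 2) = 3 * (τ p - (τ p)⁻¹) / (2 * ω) * φ s ∧
        3 * μ * (T⁻¹ - (τ p + (τ p)⁻¹) / 2) = -(3 * (τ p - (τ p)⁻¹) / (2 * ω) * φ s))) := by
    intro p
    obtain ⟨φ, hφ⟩ := exists_extn k K (ψ p)
    by_cases h3 : (3 : 𝓞 k) ∈ p.asIdeal
    · obtain ⟨A, B, T, h6⟩ := loc_T ltt h φ hω (by rw [hφ]; exact (hp p h3).2.1) z c0 hc00 hz hlt
      exact ⟨φ, A, B, T, hφ, fun _ => h6⟩
    · exact ⟨φ, 0, 0, 0, hφ, fun h' => absurd h' h3⟩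
  choose φ A B T hφ hL using h5
  have hφ' : ∀ (p : HeightOneSpectrum (𝓞 k)) (x : k), φ p (algebraMap k K x) = ψ p x := by
    intro p x
    rw [← hφ p]
    rfl
  obtain ⟨S, hS⟩ : ∃ S : Finset (HeightOneSpectrum (𝓞 k)), ∀ p, p ∈ S ↔ (3 : 𝓞 k) ∈ p.asIdeal :=
    ⟨(finite_above k).toFinset, fun p => by rw [Set.Finite.mem_toFinset, Set.mem_ofPred_eq]⟩
  obtain ⟨N, hN⟩ := ((Filter.eventually_all_finset S).2 fun p _ =>
    near (A p + B p * φ p s) (A p - B p * φ p s) (φ p z) (φ p (c z))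
      (φ p (algebraMap k K c0)) (M + 1)).exists
  obtain ⟨xA, hxA⟩ := wap k ψ (fun p h3 => (hp p h3).1) A (fun p h3 => by
    rw [← hφ p]; exact (hL p h3).1) N
  obtain ⟨xB, hxB⟩ := wap k ψ (fun p h3 => (hp p h3).1) B (fun p h3 => by
    rw [← hφ p]; exact (hL p h3).2.1) N
  obtain ⟨t, ht⟩ : ∃ t : K, t = algebraMap k K xA + algebraMap k K xB * s := ⟨_, rfl⟩
  have hct : c t = algebraMap k K xA - algebraMap k K xB * s := by
    rw [ht, map_add, map_mul, c.commutes, c.commutes, h.conj]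
    ring
  obtain ⟨y0, hy0⟩ : ∃ y0 : K, y0 = z * t ^ 3 := ⟨_, rfl⟩
  have hcy0 : c y0 = c z * (c t) ^ 3 := by rw [hy0, map_mul, map_pow]
  obtain ⟨ν1, hν1⟩ : ∃ ν1 : k, ν1 = (xA ^ 2 - 3 * (m : k) * xB ^ 2) * c0 := ⟨_, rfl⟩
  have hν1K : algebraMap k K ν1 = t * c t * algebraMap k K c0 := by
    have h6 : t * c t = algebraMap k K (xA ^ 2 - 3 * (m : k) * xB ^ 2) := by
      rw [hct, ht, map_sub, map_mul, map_pow, map_pow, ← h.sq]
      ring
    rw [h6, ← map_mul, hν1]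
  have hyc : y0 * c y0 = algebraMap k K ν1 ^ 3 := by
    rw [hcy0, hy0, hν1K, mul_pow, ← hz]
    ring
  have hs1 : ∀ p, ‖φ p (s : K)‖ ≤ 1 := fun p => norm_embedding_le_one (φ p) s
  have hclose : ∀ p : HeightOneSpectrum (𝓞 k), (3 : 𝓞 k) ∈ p.asIdeal →
      ‖φ p y0 - T p‖ ≤ (3 : ℝ)⁻¹ ^ (M + 1) ∧ ‖φ p (c y0) - (T p)⁻¹‖ ≤ (3 : ℝ)⁻¹ ^ (M + 1) ∧
      ‖ψ p ν1 - 1‖ ≤ (3 : ℝ)⁻¹ ^ (M + 1) := by
    intro p h3
    obtain ⟨_, _, h6, h7, h8, h9, _⟩ := hL p h3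
    have hA := hxA p h3
    have hB := hxB p h3
    have hBs : ‖(ψ p xB - B p) * φ p (s : K)‖ ≤ (3 : ℝ)⁻¹ ^ N := by
      rw [norm_mul]
      calc _ ≤ (3 : ℝ)⁻¹ ^ N * 1 := mul_le_mul hB (hs1 p) (norm_nonneg _) (by positivity)
        _ = _ := mul_one _
    have e1 : ‖φ p t - (A p + B p * φ p s)‖ ≤ (3 : ℝ)⁻¹ ^ N := by
      have e : φ p t - (A p + B p * φ p s) = (ψ p xA - A p) + (ψ p xB - B p) * φ p (s : K) := by
        rw [ht, map_add, map_mul, hφ', hφ']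
        ring
      rw [e]
      exact close_add hA hBs
    have e2 : ‖φ p (c t) - (A p - B p * φ p s)‖ ≤ (3 : ℝ)⁻¹ ^ N := by
      have e : φ p (c t) - (A p - B p * φ p s) =
          (ψ p xA - A p) - (ψ p xB - B p) * φ p (s : K) := by
        rw [hct, map_sub, map_mul, hφ', hφ']
        ring
      rw [e]
      exact close_sub hA hBs
    obtain ⟨f1, f2, f3⟩ := hN p ((hS p).2 h3) _ _ e1 e2
    refine ⟨?_, ?_, ?_⟩
    · rw [h8, ← map_pow, ← map_mul, ← hy0] at f1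
      exact f1
    · rw [h9, ← map_pow, ← map_mul, ← hcy0] at f2
      exact f2
    · rw [h6, ← map_mul, ← map_mul, ← hν1K, hφ'] at f3
      exact f3
  have hlt1 : (3 : ℝ)⁻¹ ^ (M + 1) < 1 := pow_lt_one₀ (by norm_num) (by norm_num) (by omega)
  have hleM : (3 : ℝ)⁻¹ ^ (M + 1) ≤ (3 : ℝ)⁻¹ ^ M :=
    pow_le_pow_of_le_one (by norm_num) (by norm_num) (by omega)
  have hnorm : ∀ p : HeightOneSpectrum (𝓞 k), (3 : 𝓞 k) ∈ p.asIdeal →
      ‖φ p y0‖ = 1 ∧ ‖φ p (c y0)‖ = 1 := by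
    intro p h3
    obtain ⟨e1, e2, _⟩ := hclose p h3
    have hT := (hL p h3).2.2.2.1
    exact ⟨norm_one_of_close hT (e1.trans_lt hlt1),
      norm_one_of_close (by rw [norm_inv, hT, inv_one]) (e2.trans_lt hlt1)⟩
  have hy00 : y0 ≠ 0 := by
    intro h0
    obtain ⟨p, h3⟩ := exists_three k
    have h6 := (hnorm p h3).1
    rw [h0, map_zero, norm_zero] at h6
    exact zero_ne_one h6
  have ht0 : t ≠ 0 := by
    intro h0
    rw [h0] at hy0
    exact hy00 (by rw [hy0]; simp)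
  have hcy00 : c y0 ≠ 0 := by
    rw [Ne, map_eq_zero_iff c c.injective]
    exact hy00
  have hν10 : ν1 ≠ 0 := by
    intro h0
    rw [h0, map_zero, zero_pow (by norm_num)] at hyc
    exact mul_ne_zero hy00 hcy00 hyc
  -- clearing denominators
  obtain ⟨n, y, I, hn, hnd, hy, hyne, hyI⟩ := apit K y0 (M + 1) hy00 (by
    intro q hq
    obtain ⟨x, hx⟩ := hval q hq
    refine ⟨x * q.valuation K t, ?_⟩
    rw [hy0, map_mul, map_pow, hx, mul_pow]) (by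
    intro q hq
    apply le_antisymm
    · exact val_above int h ψ φ hφ (fun p h3 => (hp p h3).1) y0
        (fun p h3 => ⟨(hnorm p h3).1.le, (hnorm p h3).2.le⟩) q hq
    · have h6 := val_above int h ψ φ hφ (fun p h3 => (hp p h3).1) y0⁻¹
        (fun p h3 => by
          rw [map_inv₀, map_inv₀, map_inv₀, norm_inv, norm_inv, (hnorm p h3).1, (hnorm p h3).2,
            inv_one]
          exact ⟨le_refl _, le_refl _⟩) q hq
      rw [map_inv₀] at h6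
      exact (inv_le_one₀ (by
        rw [zero_lt_iff]
        exact (map_ne_zero _).2 hy00)).1 h6)
  have hnK : (n : K) ≠ 0 := Nat.cast_ne_zero.2 hn
  have hnk : (n : k) ≠ 0 := Nat.cast_ne_zero.2 hn
  have hcy : c (y : K) = c y0 * (n : K) ^ 3 := by rw [hy, map_mul, map_pow, map_natCast]
  have hyy : (y : K) * c (y : K) = algebraMap k K (ν1 * (n : k) ^ 2) ^ 3 := by
    rw [hcy, hy, map_mul, map_pow, map_natCast]
    linear_combination (n : K) ^ 6 * hyc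
  have hνi : IsIntegral ℤ (ν1 * (n : k) ^ 2) := by
    rw [← isIntegral_algebraMap_iff (algebraMap k K).injective (R := ℤ)]
    have h6 : IsIntegral ℤ (algebraMap k K (ν1 * (n : k) ^ 2) ^ 3) := by
      rw [← hyy]
      exact (RingOfIntegers.isIntegral_coe y).mul ((RingOfIntegers.isIntegral_coe y).map
        (c.toAlgHom.restrictScalars ℤ))
    exact h6.of_pow (by norm_num)
  obtain ⟨ν, hν⟩ : ∃ ν : 𝓞 k, (ν : k) = ν1 * (n : k) ^ 2 := ⟨⟨_, hνi⟩, rfl⟩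
  refine ⟨y, I, ν, ?_, by rw [hν]; exact hyy, hyI, ?_, ?_⟩
  · intro h0
    rw [h0] at hν
    exact mul_ne_zero hν10 (pow_ne_zero 2 hnk) hν.symm
  · intro r hr
    apply hcube (r / (t * n))
    rw [div_pow, hr, hy, hy0]
    field_simp
  intro p h3
  obtain ⟨e1, e2, e3⟩ := hclose p h3
  obtain ⟨_, _, _, hT1, _, _, hT⟩ := hL p h3
  obtain ⟨hov, _, _, hP, hQ⟩ := hp p h3
  have hT0 : T p ≠ 0 := by
    intro h0
    rw [h0, norm_zero] at hT1
    exact zero_ne_one hT1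
  have hn1 : ‖(n : Om) - 1‖ ≤ (3 : ℝ)⁻¹ ^ M := (om_close n (M + 1) hnd).trans hleM
  have hnn : ‖(n : Om)‖ ≤ 1 := by
    have := om_int (n : ℤ)
    simpa using this
  have hn2 : ‖(n : Om) * n - 1 * 1‖ ≤ (3 : ℝ)⁻¹ ^ M :=
    close_mul hn1 hn1 hnn (by rw [norm_one])
  have hnn2 : ‖(n : Om) * n‖ ≤ 1 := by
    rw [norm_mul]
    exact mul_le_one₀ hnn (norm_nonneg _) hnn
  have hn3 : ‖(n : Om) * n * n - 1 * 1 * 1‖ ≤ (3 : ℝ)⁻¹ ^ M :=
    close_mul hn2 hn1 hnn (by rw [mul_one, norm_one])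
  have hnn3 : ‖(n : Om) * n * n‖ ≤ 1 := by
    rw [norm_mul]
    exact mul_le_one₀ hnn2 (norm_nonneg _) hnn
  have hov' : Ov p ((φ p).comp (algebraMap k K)) := by rw [hφ]; exact hov
  have g1 : ‖φ p (y : K) - T p‖ ≤ (3 : ℝ)⁻¹ ^ M := by
    have e : φ p (y : K) - T p = φ p y0 * ((n : Om) * n * n) - T p * (1 * 1 * 1) := by
      rw [hy, map_mul, map_pow, map_natCast]
      ring
    rw [e]
    exact close_mul (e1.trans hleM) hn3 hnn3 hT1.le
  have g2 : ‖φ p (c (y : K)) - (T p)⁻¹‖ ≤ (3 : ℝ)⁻¹ ^ M := by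
    have e : φ p (c (y : K)) - (T p)⁻¹ = φ p (c y0) * ((n : Om) * n * n) -
        (T p)⁻¹ * (1 * 1 * 1) := by
      rw [hcy, map_mul, map_pow, map_natCast]
      ring
    rw [e]
    exact close_mul (e2.trans hleM) hn3 hnn3 (by rw [norm_inv, hT1, inv_one])
  have g3 : ‖φ p (c (y : K))‖ ≤ 1 := by
    have h6 : ‖((φ p).comp (c : K →+* K)) (y : K)‖ ≤ 1 := norm_embedding_le_one _ _
    exact h6
  constructor
  · refine (apo k p (ψ p) h3 hov).2 _ M ?_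
    have e : ψ p ((ν - 1 : 𝓞 k) : k) = ψ p ν1 * ((n : Om) * n) - 1 * (1 * 1) := by
      have h6 : ((ν - 1 : 𝓞 k) : k) = (ν : k) - 1 := rfl
      rw [h6, map_sub, map_one, hν, map_mul, map_pow, map_natCast]
      ring
    rw [e]
    exact close_mul (e3.trans hleM) hn2 hnn2 (by rw [norm_one])
  · rcases hT with hT | ⟨μ, hμ, hμ2, f1, f2⟩
    · left
      rw [hT] at g1 g2
      rw [inv_one] at g2
      refine (int k K m s c h p (φ p) h3 hov').2.2 _ M ?_ ?_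
      · have e : ((y - 1 : 𝓞 K) : K) = (y : K) - 1 := rfl
        rw [e, map_sub, map_one]
        exact g1
      · have e : ((y - 1 : 𝓞 K) : K) = (y : K) - 1 := rfl
        rw [e, map_sub, map_one, map_sub, map_one]
        exact g2
    · exact alt_two int apo h p (φ p) h3 hov' M (by rw [hφ']; exact hP) (by rw [hφ']; exact hQ)
        hμ hμ2 f1 f2 y g1 g2 g3

end Pool.Agent.LeoD.H32
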