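import Pool.Agent.LeoD.AlgStmts
import Pool.Agent.Helper32_LeoK.Cub

/-!
Squad LEOD, module FRM: the cubic form attached to a unit.
-/

set_option autoImplicit false

open NumberField IsDedekindDomain Module
open Pool.Agent.LeoK Pool.Agent.LeoG

namespace Pool.Agent.LeoD.H32

/-- `y I ⊆ 𝓞` implies `y J I ⊆ J`. -/
lemma invI_mul {k : Type} [Field k] (I J : Ideal (𝓞 k)) (y : k)
    (h : ∀ i ∈ I, ∃ o : 𝓞 k, y * (i : k) = (o : k)) :
    ∀ x ∈ J * I, ∃ o ∈ J, y * (x : k) = (o : k) := by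
  intro x hx
  refine Submodule.mul_induction_on hx ?_ ?_
  · intro j hj i hi
    obtain ⟨o, ho⟩ := h i hi
    refine ⟨j * o, J.mul_mem_right o hj, ?_⟩
    have e1 : ((j * i : 𝓞 k) : k) = (j : k) * i := rfl
    have e2 : ((j * o : 𝓞 k) : k) = (j : k) * o := rfl
    rw [e1, e2, ← ho]
    ring
  · rintro a b ⟨o, ho, ha⟩ ⟨o', ho', hb⟩
    refine ⟨o + o', J.add_mem ho ho', ?_⟩
    have e1 : ((a + b : 𝓞 k) : k) = (a : k) + b := rfl
    have e2 : ((o + o' : 𝓞 k) : k) = (o : k) + o' := rfl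
    rw [e1, e2, mul_add, ha, hb]

lemma int_mul_pow {k K : Type} [Field k] [Field K] [Algebra k K] (I : Ideal (𝓞 k)) (v : K)
    (h : ∀ β ∈ I, IsIntegral ℤ (algebraMap k K (β : k) * v)) (j : ℕ) :
    ∀ β ∈ I ^ j, IsIntegral ℤ (algebraMap k K (β : k) * v ^ j) := by
  induction j with
  | zero =>
    intro β _
    rw [pow_zero, mul_one]
    exact β.isIntegral_coe.map ((algebraMap k K).toIntAlgHom)
  | succ j ih =>
    intro β hβ
    rw [pow_succ] at hβ
    refine Submodule.mul_induction_on hβ ?_ ?_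
    · intro a ha b hb
      have e1 : ((a * b : 𝓞 k) : k) = (a : k) * b := rfl
      have e2 : algebraMap k K ((a * b : 𝓞 k) : k) * v ^ (j + 1) =
          (algebraMap k K (a : k) * v ^ j) * (algebraMap k K (b : k) * v) := by
        rw [e1, map_mul]
        ring
      rw [e2]
      exact (ih a ha).mul (h b hb)
    · intro a b ha hb
      have e1 : ((a + b : 𝓞 k) : k) = (a : k) + b := rfl
      rw [e1, map_add, add_mul]
      exact ha.add hb

/-- The coefficient attached to `W` with `𝔟 ^ j W` integral. -/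
lemma coef {k K : Type} [Field k] [NumberField k] [Field K] [NumberField K] [Algebra k K]
    (I C : Ideal (𝓞 k)) (s : 𝓞 K) (hs : (s : K) ≠ 0) (c : K ≃ₐ[k] K)
    (hx : ∀ x : 𝓞 K, ∃ y : k, InvI C (3 * y) ∧ (x : K) - c x = algebraMap k K y * s)
    (b : 𝓞 k) (hb : b ∈ I) (hb0 : b ≠ 0) (W : K)
    (hW : ∀ β ∈ I, IsIntegral ℤ (algebraMap k K (β : k) * W)) :
    ∃ y : k, W - c W = algebraMap k K y * s ∧
      ∀ x ∈ I * C, ∃ o : 𝓞 k, 3 * y * (x : k) = (o : k) := by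
  have h1 : ∀ β ∈ I, ∃ y : k, InvI C (3 * y) ∧
      algebraMap k K (β : k) * (W - c W) = algebraMap k K y * s := by
    intro β hβ
    obtain ⟨y, hy, hy'⟩ := hx ⟨_, hW β hβ⟩
    refine ⟨y, hy, ?_⟩
    rw [← hy']
    change _ = algebraMap k K (β : k) * W - c (algebraMap k K (β : k) * W)
    rw [map_mul, AlgEquiv.commutes]
    ring
  obtain ⟨yb, hyb, hyb'⟩ := h1 b hb
  have hbk : (b : k) ≠ 0 := by simpa using hb0
  have hbK : algebraMap k K (b : k) ≠ 0 := by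
    rw [Ne, map_eq_zero_iff _ (algebraMap k K).injective]
    exact hbk
  have hy : W - c W = algebraMap k K (yb / (b : k)) * s := by
    apply mul_left_cancel₀ hbK
    rw [hyb', map_div₀]
    field_simp
  refine ⟨yb / (b : k), hy, ?_⟩
  have h2 : ∀ β ∈ I, InvI C (3 * (yb / (b : k)) * (β : k)) := by
    intro β hβ
    obtain ⟨y, hy1, hy2⟩ := h1 β hβ
    rw [hy] at hy2
    have h3 : algebraMap k K ((β : k) * (yb / (b : k))) = algebraMap k K y := by
      apply mul_right_cancel₀ hs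
      rw [← hy2, map_mul, mul_assoc]
    have h4 := (algebraMap k K).injective h3
    have h5 : 3 * (yb / (b : k)) * (β : k) = 3 * y := by
      rw [← h4]
      ring
    rw [h5]
    exact hy1
  intro x hxx
  refine Submodule.mul_induction_on hxx ?_ ?_
  · intro β hβ i hi
    obtain ⟨o, ho⟩ := h2 β hβ i hi
    refine ⟨o, ?_⟩
    rw [← ho]
    have e1 : ((β * i : 𝓞 k) : k) = (β : k) * i := rfl
    rw [e1]
    ring
  · rintro p q ⟨o, ho⟩ ⟨o', ho'⟩
    refine ⟨o + o', ?_⟩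
    have e1 : ((p + q : 𝓞 k) : k) = (p : k) + q := rfl
    have e2 : ((o + o' : 𝓞 k) : k) = (o : k) + o' := rfl
    rw [e1, e2, mul_add, ho, ho']

/-- No zeros. -/
lemma irr {k K : Type} [Field k] [Field K] [Algebra k K] (c : K ≃ₐ[k] K) (u v z : K)
    (hz : z * c z = 1) (hD : u * c v - v * c u ≠ 0) (hcube : ∀ y : K, y ^ 3 ≠ z) (X Y : k)
    (h : (algebraMap k K X * u + algebraMap k K Y * v) ^ 3 * c z =
      c ((algebraMap k K X * u + algebraMap k K Y * v) ^ 3 * c z))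
    (hcc : c (c z) = z) : X = 0 ∧ Y = 0 := by
  have inj : Function.Injective (algebraMap k K) := (algebraMap k K).injective
  have hz0 : z ≠ 0 := by
    intro h0
    rw [h0, zero_mul] at hz
    exact zero_ne_one hz
  obtain ⟨a, ha⟩ : ∃ a : K, a = algebraMap k K X * u + algebraMap k K Y * v := ⟨_, rfl⟩
  rw [← ha] at h
  have hca : c a = algebraMap k K X * c u + algebraMap k K Y * c v := by
    rw [ha, map_add, map_mul, map_mul, AlgEquiv.commutes, AlgEquiv.commutes]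
  rw [map_mul, map_pow, hcc] at h
  by_cases h0 : a = 0
  · have hca0 : c a = 0 := by rw [h0, map_zero]
    rw [hca] at hca0
    rw [ha] at h0
    have eX : algebraMap k K X * (u * c v - v * c u) = 0 := by
      linear_combination c v * h0 - v * hca0
    have eY : algebraMap k K Y * (u * c v - v * c u) = 0 := by
      linear_combination -(c u) * h0 + u * hca0
    have rX := (mul_eq_zero.1 eX).resolve_right hD
    have rY := (mul_eq_zero.1 eY).resolve_right hD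
    exact ⟨inj (by rw [rX, map_zero]), inj (by rw [rY, map_zero])⟩
  · exfalso
    refine hcube (z * c a / a) ?_
    rw [div_pow, div_eq_iff (pow_ne_zero 3 h0)]
    linear_combination (-z ^ 2) * h + a ^ 3 * z * hz

/-- FRM. -/
theorem frm : FrmStmt := by
  intro k K _ _ _ _ _ B m s c hE hx z t ν hz hcube ht hν U V hU hV hD
  have inj : Function.Injective (algebraMap k K) := (algebraMap k K).injective
  -- `s ≠ 0`
  have hs0 : (s : K) ≠ 0 := by
    intro h0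
    apply hE.nsq 0
    apply inj
    rw [← hE.sq, h0, map_pow, map_zero]
  -- `b ≠ 0`
  have hb : B.b ≠ 0 := by
    intro h0
    have h1 := B.cop
    rw [h0] at h1
    norm_num at h1
  have hbK : (B.b : K) ≠ 0 := Nat.cast_ne_zero.2 hb
  have hbk : (B.b : k) ≠ 0 := Nat.cast_ne_zero.2 hb
  have hbO : (B.b : 𝓞 k) ≠ 0 := Nat.cast_ne_zero.2 hb
  have hbc : ((B.b : 𝓞 k) : k) = (B.b : k) := map_natCast (algebraMap (𝓞 k) k) B.b
  have hbm : (B.b : 𝓞 k) ∈ B.bb * B.cc := by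
    rw [B.mul]
    exact Ideal.mem_span_singleton_self _
  have hbb : (B.b : 𝓞 k) ∈ B.bb := Ideal.mul_le_left hbm
  -- `t ≠ 0`
  have hνK : algebraMap k K (ν : k) ≠ 0 := by
    rw [Ne, map_eq_zero_iff _ inj]
    simpa using hν
  have ht0 : (t : K) ≠ 0 := by
    intro h0
    rw [h0, zero_mul] at ht
    exact hνK ht.symm
  have hct0 : c (t : K) ≠ 0 := by
    intro h0
    rw [h0, mul_zero] at ht
    exact hνK ht.symm
  obtain ⟨u, hu⟩ := hU
  obtain ⟨v, hv⟩ : ∃ v : K, V = t * v := ⟨V / t, by field_simp⟩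
  have hβ : ∀ β ∈ B.bb, IsIntegral ℤ (algebraMap k K (β : k) * v) := by
    intro β hb'
    obtain ⟨w, hw⟩ := hV β hb'
    have e : algebraMap k K (β : k) * v = (w : K) := by
      apply mul_left_cancel₀ ht0
      rw [← hw, hv]
      ring
    rw [e]
    exact w.isIntegral_coe
  have hzi : IsIntegral ℤ (c ((z : 𝓞 K) : K)) :=
    (z : 𝓞 K).isIntegral_coe.map ((c : K ≃ₐ[k] K).toRingEquiv.toRingHom.toIntAlgHom)
  have hz0 : ((z : 𝓞 K) : K) ≠ 0 := by
    intro h0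
    rw [h0, zero_mul] at hz
    exact zero_ne_one hz
  have hcz0 : c ((z : 𝓞 K) : K) ≠ 0 := by
    intro h0
    rw [h0, mul_zero] at hz
    exact zero_ne_one hz
  obtain ⟨ζ, hζ⟩ : ∃ ζ : K, ζ = ((z : 𝓞 K) : K) := ⟨_, rfl⟩
  rw [← hζ] at hz hz0 hcz0 hzi
  -- the determinant
  have hdet : (B.b : K) * ((u : K) * c v - v * c (u : K)) = s := by
    apply mul_left_cancel₀ hνK
    rw [← hD, hu, hv, map_mul, map_mul, ← ht]
    ring
  have hW : ∀ i j : ℕ, ∀ β ∈ B.bb ^ j, IsIntegral ℤ (algebraMap k K (β : k) *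
      ((u : K) ^ i * v ^ j * c ζ)) := by
    intro i j β hb'
    have h1 := int_mul_pow B.bb v hβ j β hb'
    have e : algebraMap k K (β : k) * ((u : K) ^ i * v ^ j * c ζ) =
        (algebraMap k K (β : k) * v ^ j) * ((u : K) ^ i * c ζ) := by ring
    rw [e]
    exact h1.mul ((u.isIntegral_coe.pow i).mul hzi)
  obtain ⟨y0, hy0, k0⟩ := coef (B.bb ^ 0) B.cc s hs0 c hx ((B.b : 𝓞 k) ^ 0)
    (Ideal.pow_mem_pow hbb 0) (pow_ne_zero 0 hbO) _ (hW 3 0)
  obtain ⟨y1, hy1, k1⟩ := coef (B.bb ^ 1) B.cc s hs0 c hx ((B.b : 𝓞 k) ^ 1)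
    (Ideal.pow_mem_pow hbb 1) (pow_ne_zero 1 hbO) _ (hW 2 1)
  obtain ⟨y2, hy2, k2⟩ := coef (B.bb ^ 2) B.cc s hs0 c hx ((B.b : 𝓞 k) ^ 2)
    (Ideal.pow_mem_pow hbb 2) (pow_ne_zero 2 hbO) _ (hW 1 2)
  obtain ⟨y3, hy3, k3⟩ := coef (B.bb ^ 3) B.cc s hs0 c hx ((B.b : 𝓞 k) ^ 3)
    (Ideal.pow_mem_pow hbb 3) (pow_ne_zero 3 hbO) _ (hW 0 3)
  rw [pow_zero, one_mul] at k0
  -- the four coefficients
  obtain ⟨o0, ho0, e0⟩ := invI_mul B.cc B.bb (3 * y0) k0 _ hbm
  obtain ⟨o1, e1⟩ := k1 (B.b : 𝓞 k) (by rw [pow_one]; exact hbm)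
  have k2' : ∀ β ∈ B.bb, ∃ o : 𝓞 k, (3 * y2 * (B.b : k)) * (β : k) = (o : k) := by
    intro β hb'
    obtain ⟨o, ho⟩ := k2 (β * (B.b : 𝓞 k)) (by
      have e : B.bb ^ 2 * B.cc = B.bb * (B.bb * B.cc) := by ring
      rw [e]
      exact Ideal.mul_mem_mul hb' hbm)
    refine ⟨o, ?_⟩
    rw [← ho]
    have e : ((β * (B.b : 𝓞 k) : 𝓞 k) : k) = (β : k) * ((B.b : 𝓞 k) : k) := rfl
    rw [e, hbc]
    ring
  have k3' : ∀ β ∈ B.bb ^ 2, ∃ o : 𝓞 k, (3 * y3 * (B.b : k)) * (β : k) = (o : k) := by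
    intro β hb'
    obtain ⟨o, ho⟩ := k3 (β * (B.b : 𝓞 k)) (by
      have e : B.bb ^ 3 * B.cc = B.bb ^ 2 * (B.bb * B.cc) := by ring
      rw [e]
      exact Ideal.mul_mem_mul hb' hbm)
    refine ⟨o, ?_⟩
    rw [← ho]
    have e : ((β * (B.b : 𝓞 k) : 𝓞 k) : k) = (β : k) * ((B.b : 𝓞 k) : k) := rfl
    rw [e, hbc]
    ring
  obtain ⟨o2, ho2, e2⟩ := invI_mul B.bb B.cc _ k2' (B.b : 𝓞 k) (by rw [mul_comm]; exact hbm)
  obtain ⟨o3, ho3, e3⟩ := invI_mul (B.bb ^ 2) (B.cc ^ 2) _ k3' ((B.b : 𝓞 k) ^ 2) (by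
    rw [← mul_pow, mul_comm B.cc B.bb]
    exact Ideal.pow_mem_pow hbm 2)
  have hb2 : (((B.b : 𝓞 k) ^ 2 : 𝓞 k) : k) = (B.b : k) ^ 2 := by
    have e : (((B.b : 𝓞 k) ^ 2 : 𝓞 k) : k) = ((B.b : 𝓞 k) : k) ^ 2 := rfl
    rw [e, hbc]
  rw [hbc] at e0 e1 e2
  rw [hb2] at e3
  have h3k : ((3 : 𝓞 k) : k) = 3 := map_ofNat (algebraMap (𝓞 k) k) 3
  obtain ⟨F, hF⟩ : ∃ F : Q4 (𝓞 k), F = ![(B.b : 𝓞 k) ^ 2 * o0, (B.b : 𝓞 k) ^ 2 * (3 * o1),
    (B.b : 𝓞 k) * (3 * o2), o3] := ⟨_, rfl⟩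
  have f0 : ((F 0 : 𝓞 k) : k) = 3 * (B.b : k) ^ 3 * y0 := by
    have e : ((F 0 : 𝓞 k) : k) = (((B.b : 𝓞 k) ^ 2 : 𝓞 k) : k) * (o0 : k) := by rw [hF]; rfl
    rw [e, hb2, ← e0]
    ring
  have f1 : ((F 1 : 𝓞 k) : k) = 9 * (B.b : k) ^ 3 * y1 := by
    have e : ((F 1 : 𝓞 k) : k) = (((B.b : 𝓞 k) ^ 2 : 𝓞 k) : k) * (((3 : 𝓞 k) : k) * (o1 : k)) := by
      rw [hF]; rfl
    rw [e, hb2, ← e1, h3k]
    ring
  have f2 : ((F 2 : 𝓞 k) : k) = 9 * (B.b : k) ^ 3 * y2 := by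
    have e : ((F 2 : 𝓞 k) : k) = ((B.b : 𝓞 k) : k) * (((3 : 𝓞 k) : k) * (o2 : k)) := by
      rw [hF]; rfl
    rw [e, hbc, ← e2, h3k]
    ring
  have f3 : ((F 3 : 𝓞 k) : k) = 3 * (B.b : k) ^ 3 * y3 := by
    have e : ((F 3 : 𝓞 k) : k) = (o3 : k) := by rw [hF]; rfl
    rw [e, ← e3]
    ring
  have hFOf : FOf B s c (ζ * (t : K) ^ 3) U V F := by
    intro X Y
    have hg : gval (fun i => ((F i : 𝓞 k) : k)) X Y = 3 * (B.b : k) ^ 3 *
        (y0 * X ^ 3 + 3 * y1 * X ^ 2 * Y + 3 * y2 * X * Y ^ 2 + y3 * Y ^ 3) := by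
      simp only [gval, f0, f1, f2, f3]
      ring
    have hq : (algebraMap k K X * U + algebraMap k K Y * V) ^ 3 / (ζ * (t : K) ^ 3) =
        (algebraMap k K X * (u : K) + algebraMap k K Y * v) ^ 3 * c ζ := by
      rw [div_eq_iff (mul_ne_zero hz0 (pow_ne_zero 3 ht0)), hu, hv]
      linear_combination (-(algebraMap k K X * (u : K) + algebraMap k K Y * v) ^ 3 *
        (t : K) ^ 3) * hz
    rw [hq, hg]
    simp only [map_add, map_mul, map_pow, AlgEquiv.commutes, map_ofNat, map_natCast] at hy0 hy1 hy2 hy3 ⊢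
    linear_combination -3 * (B.b : K) ^ 3 * ((algebraMap k K X) ^ 3 * hy0 +
      3 * (algebraMap k K X) ^ 2 * algebraMap k K Y * hy1 +
      3 * algebraMap k K X * (algebraMap k K Y) ^ 2 * hy2 + (algebraMap k K Y) ^ 3 * hy3)
  have hccz : c (c ζ) = ζ := by
    have h1 : c ζ * c (c ζ) = 1 := by rw [← map_mul, hz, map_one]
    apply mul_left_cancel₀ hcz0
    rw [h1, mul_comm, hz]
  refine ⟨F, by rw [← hζ]; exact hFOf, ?_, ?_, ?_, ?_, ?_, ?_⟩
  · -- no zeros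
    intro X Y hXY
    have h1 := hFOf (X : k) (Y : k)
    have h2 : gval (fun i => ((F i : 𝓞 k) : k)) (X : k) (Y : k) = ((gval F X Y : 𝓞 k) : k) := rfl
    have h20 : ((0 : 𝓞 k) : k) = 0 := rfl
    rw [h2, hXY, h20, map_zero, zero_mul] at h1
    have hq : (algebraMap k K (X : k) * U + algebraMap k K (Y : k) * V) ^ 3 /
        (ζ * (t : K) ^ 3) =
        (algebraMap k K (X : k) * (u : K) + algebraMap k K (Y : k) * v) ^ 3 * c ζ := by
      rw [div_eq_iff (mul_ne_zero hz0 (pow_ne_zero 3 ht0)), hu, hv]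
      linear_combination (-(algebraMap k K (X : k) * (u : K) + algebraMap k K (Y : k) * v) ^ 3 *
        (t : K) ^ 3) * hz
    rw [hq] at h1
    have h3 : (3 * (B.b : K) ^ 3) ≠ 0 := mul_ne_zero (by norm_num) (pow_ne_zero 3 hbK)
    have h4 := (mul_eq_zero.1 h1.symm).resolve_left h3
    obtain ⟨hX, hY⟩ := irr c (u : K) v ζ hz (by
      intro h0
      rw [h0, mul_zero] at hdet
      exact hs0 hdet.symm) (by rw [hζ]; exact hcube) (X : k) (Y : k) (sub_eq_zero.1 h4) hccz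
    exact ⟨by simpa using hX, by simpa using hY⟩
  · -- the discriminant
    apply RingOfIntegers.coe_injective
    apply inj
    have hd1 : ∀ x : K, x / ζ = x * c ζ := by
      intro x
      rw [div_eq_iff hz0]
      linear_combination -x * hz
    have hd2 : ∀ x : K, x / c ζ = x * ζ := by
      intro x
      rw [div_eq_iff hcz0]
      linear_combination -x * hz
    have hcore := (Pool.Agent.LeoK.H32.core (U := (u : K)) (V := (B.b : K) * v)
      (U' := c (u : K)) (V' := (B.b : K) * c v) hz0 hcz0 hs0 one_ne_zero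
      (A0 := algebraMap k K y0) (A1 := (B.b : K) * algebraMap k K y1)
      (A2 := (B.b : K) ^ 2 * algebraMap k K y2) (A3 := (B.b : K) ^ 3 * algebraMap k K y3)
      ?_ ?_ ?_ ?_ (by rw [hz, one_pow]) (by rw [one_mul, ← hdet]; ring)).2.2.2
    · have h5 : algebraMap k K ((mm F : 𝓞 k) : k) = 3 ^ 7 * (B.b : K) ^ 12 * (-(
          3 * (algebraMap k K y1) ^ 2 * (algebraMap k K y2) ^ 2 -
          4 * algebraMap k K y0 * (algebraMap k K y2) ^ 3 -
          4 * (algebraMap k K y1) ^ 3 * algebraMap k K y3 -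
          (algebraMap k K y0) ^ 2 * (algebraMap k K y3) ^ 2 +
          6 * algebraMap k K y0 * algebraMap k K y1 * algebraMap k K y2 * algebraMap k K y3)) := by
        have h6 : ((mm F : 𝓞 k) : k) = mm (fun i => ((F i : 𝓞 k) : k)) := by
          change algebraMap (𝓞 k) k (mm F) = mm (fun i => algebraMap (𝓞 k) k (F i))
          simp only [mm, dsc, map_neg, map_add, map_sub, map_mul, map_pow, map_ofNat]
        rw [h6]
        simp only [mm, dsc, f0, f1, f2, f3, map_add, map_sub, map_neg, map_mul, map_pow, map_ofNat,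
          map_natCast]
        ring
      have h7 : algebraMap k K (((B.kap : 𝓞 k) * m : 𝓞 k) : k) =
          3 ^ 7 * (B.b : K) ^ 6 * (s : K) ^ 2 := by
        have h8 : (((B.kap : 𝓞 k) * m : 𝓞 k) : k) = (B.kap : k) * (m : k) := by
          have h9 : (((B.kap : 𝓞 k) * m : 𝓞 k) : k) = ((B.kap : 𝓞 k) : k) * (m : k) := rfl
          rw [h9]
          congr 1
        rw [h8, map_mul, hE.sq, map_mul, map_natCast, map_ofNat, BFr.kap]
        push_cast
        ring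
      rw [h5, h7]
      have h10 : (B.b : K) ^ 6 ≠ 0 := pow_ne_zero 6 hbK
      linear_combination (-3 ^ 7 * (B.b : K) ^ 6) * hcore
    · rw [← hy0, hd1, hd2]
      simp only [map_mul, map_pow, pow_zero, mul_one, hccz]
    · rw [hd1, hd2, mul_assoc, ← hy1]
      simp only [map_mul, map_pow, pow_one, hccz]
      ring
    · rw [hd1, hd2, mul_assoc, ← hy2]
      simp only [map_mul, map_pow, pow_one, hccz]
      ring
    · rw [hd1, hd2, mul_assoc, ← hy3]
      simp only [map_mul, map_pow, pow_zero, one_mul, hccz]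
      ring
  · rw [hF]
    exact Ideal.mul_mem_mul (Ideal.mem_span_singleton_self _) ho0
  · rw [hF]
    exact Ideal.mul_mem_right _ _ (Ideal.mem_span_singleton_self _)
  · rw [hF]
    exact Ideal.mul_mem_mul (Ideal.mem_span_singleton_self _) (Ideal.mul_mem_left _ _ ho2)
  · rw [hF]
    exact ho3

end Pool.Agent.LeoD.H32
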