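import Pool.Agent.LeoD.AlgStmts
import Pool.Agent.Helper32_LeoD.Frm

/-!
Squad LEOD, module FRMI: the cubic form attached to an element whose ideal is a cube.
-/

set_option autoImplicit false

open NumberField IsDedekindDomain Module
open Pool.Agent.LeoK Pool.Agent.LeoG

namespace Pool.Agent.LeoD.H32

lemma pow_mem {k K : Type} [Field k] [Field K] [Algebra k K] (J : Ideal (𝓞 k))
    (I : Ideal (𝓞 K)) (v : K)
    (h : ∀ β ∈ J, ∃ w ∈ I, algebraMap k K (β : k) * v = ((w : 𝓞 K) : K)) (j : ℕ) :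
    ∀ β ∈ J ^ j, ∃ w ∈ I ^ j, algebraMap k K (β : k) * v ^ j = ((w : 𝓞 K) : K) := by
  induction j with
  | zero =>
    intro β _
    refine ⟨⟨_, β.isIntegral_coe.map ((algebraMap k K).toIntAlgHom)⟩, ?_, ?_⟩
    · rw [pow_zero, Ideal.one_eq_top]
      exact Submodule.mem_top
    · rw [pow_zero, mul_one]
      rfl
  | succ j ih =>
    intro β hβ
    rw [pow_succ] at hβ
    refine Submodule.mul_induction_on hβ ?_ ?_
    · intro a ha b hb
      obtain ⟨w, hw, hw'⟩ := ih a ha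
      obtain ⟨x, hx, hx'⟩ := h b hb
      refine ⟨w * x, ?_, ?_⟩
      · rw [pow_succ]
        exact Ideal.mul_mem_mul hw hx
      · have e1 : ((a * b : 𝓞 k) : k) = (a : k) * b := rfl
        have e2 : ((w * x : 𝓞 K) : K) = (w : K) * x := rfl
        rw [e1, e2, ← hw', ← hx', map_mul]
        ring
    · rintro a b ⟨w, hw, hw'⟩ ⟨x, hx, hx'⟩
      refine ⟨w + x, Ideal.add_mem _ hw hx, ?_⟩
      have e1 : ((a + b : 𝓞 k) : k) = (a : k) + b := rfl
      have e2 : ((w + x : 𝓞 K) : K) = (w : K) + x := rfl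
      rw [e1, e2, map_add, add_mul, hw', hx']

/-- No zeros. -/
lemma irrI {k K : Type} [Field k] [Field K] [Algebra k K] (c : K ≃ₐ[k] K) (U V y : K) (ν : k)
    (hν : ν ≠ 0) (hy0 : y ≠ 0) (hy : y * c y = algebraMap k K ν ^ 3)
    (hD : U * c V - V * c U ≠ 0) (hcube : ∀ x : K, x ^ 3 ≠ y) (X Y : k)
    (h : (algebraMap k K X * U + algebraMap k K Y * V) ^ 3 / y =
      c ((algebraMap k K X * U + algebraMap k K Y * V) ^ 3 / y)) : X = 0 ∧ Y = 0 := by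
  have inj : Function.Injective (algebraMap k K) := (algebraMap k K).injective
  have hνK : algebraMap k K ν ≠ 0 := by
    intro h
    exact hν (inj (by rw [h, map_zero]))
  have hcy : c y ≠ 0 := by
    intro h
    exact hy0 (c.injective (by rw [h, map_zero]))
  obtain ⟨a, ha⟩ : ∃ a : K, a = algebraMap k K X * U + algebraMap k K Y * V := ⟨_, rfl⟩
  rw [← ha] at h
  have hca : c a = algebraMap k K X * c U + algebraMap k K Y * c V := by
    rw [ha, map_add, map_mul, map_mul, AlgEquiv.commutes, AlgEquiv.commutes]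
  rw [map_div₀, map_pow, div_eq_div_iff hy0 hcy] at h
  by_cases h0 : a = 0
  · have hca0 : c a = 0 := by rw [h0, map_zero]
    rw [hca] at hca0
    rw [ha] at h0
    have eX : algebraMap k K X * (U * c V - V * c U) = 0 := by
      linear_combination c V * h0 - V * hca0
    have eY : algebraMap k K Y * (U * c V - V * c U) = 0 := by
      linear_combination -(c U) * h0 + U * hca0
    have rX := (mul_eq_zero.1 eX).resolve_right hD
    have rY := (mul_eq_zero.1 eY).resolve_right hD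
    exact ⟨inj (by rw [rX, map_zero]), inj (by rw [rY, map_zero])⟩
  · exfalso
    have e3 : y ^ 2 * (c a) ^ 3 = (a * algebraMap k K ν) ^ 3 := by
      linear_combination -y * h + a ^ 3 * hy
    refine hcube (y * c a / (a * algebraMap k K ν)) ?_
    have hn : a * algebraMap k K ν ≠ 0 := mul_ne_zero h0 hνK
    rw [div_pow, div_eq_iff (pow_ne_zero 3 hn), ← e3]
    ring

/-- FRMI, without the hypothesis on `I c(I)`. -/
theorem frmI {k K : Type} [Field k] [NumberField k] [Field K] [NumberField K] [Algebra k K]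
    (B : BFr k) (m : 𝓞 k) (s : 𝓞 K) (c : K ≃ₐ[k] K) (hE : QExt k K m s c)
    (hx : ∀ x : 𝓞 K, ∃ y : k, InvI B.cc (3 * y) ∧ (x : K) - c x = algebraMap k K y * s)
    (I : Ideal (𝓞 K)) (y : 𝓞 K) (ν : 𝓞 k) (hy : (y : K) * c (y : K) = algebraMap k K (ν : k) ^ 3)
    (hyI : Ideal.span {y} = I ^ 3) (hcube : ∀ x : K, x ^ 3 ≠ (y : K)) (hν : ν ≠ 0)
    (U V : K) (hU : ∃ u ∈ I, U = ((u : 𝓞 K) : K))
    (hV : ∀ β ∈ B.bb, ∃ v ∈ I, algebraMap k K (β : k) * V = ((v : 𝓞 K) : K))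
    (hD : (B.b : K) * (U * c V - V * c U) = algebraMap k K (ν : k) * s) :
    ∃ F : Q4 (𝓞 k), FOf B s c (y : K) U V F ∧ GIrr F ∧
      mm F = (B.kap : 𝓞 k) * m ∧ F 0 ∈ Ideal.span {(B.b : 𝓞 k) ^ 2} * B.bb ∧
      F 1 ∈ Ideal.span {(B.b : 𝓞 k) ^ 2} ∧ F 2 ∈ Ideal.span {(B.b : 𝓞 k)} * B.cc ∧
      F 3 ∈ B.cc ^ 2 := by
  have inj : Function.Injective (algebraMap k K) := (algebraMap k K).injective
  -- `s ≠ 0`
  have hs0 : (s : K) ≠ 0 := by
    intro h0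
    apply hE.nsq 0
    apply inj
    rw [← hE.sq, h0, map_pow, map_zero]
  -- `b ≠ 0`
  have hb : B.b ≠ 0 := by
    intro h0
    have h1 := B.cop
    rw [h0] at h1
    norm_num at h1
  have hbK : (B.b : K) ≠ 0 := Nat.cast_ne_zero.2 hb
  have hbO : (B.b : 𝓞 k) ≠ 0 := Nat.cast_ne_zero.2 hb
  have hbc : ((B.b : 𝓞 k) : k) = (B.b : k) := map_natCast (algebraMap (𝓞 k) k) B.b
  have hbm : (B.b : 𝓞 k) ∈ B.bb * B.cc := by
    rw [B.mul]
    exact Ideal.mem_span_singleton_self _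
  have hbb : (B.b : 𝓞 k) ∈ B.bb := Ideal.mul_le_left hbm
  -- `ν ≠ 0`, `y ≠ 0`
  have hνk : (ν : k) ≠ 0 := by simpa using hν
  have hνK : algebraMap k K (ν : k) ≠ 0 := by
    rw [Ne, map_eq_zero_iff _ inj]
    exact hνk
  have hy0 : (y : K) ≠ 0 := by
    intro h0
    rw [h0, zero_mul] at hy
    exact pow_ne_zero 3 hνK hy.symm
  have hcy0 : c (y : K) ≠ 0 := by
    intro h0
    rw [h0, mul_zero] at hy
    exact pow_ne_zero 3 hνK hy.symm
  obtain ⟨u, huI, hu⟩ := hU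
  have hW : ∀ i j : ℕ, i + j = 3 → ∀ β ∈ B.bb ^ j, IsIntegral ℤ (algebraMap k K (β : k) *
      (U ^ i * V ^ j / (y : K))) := by
    intro i j hij β hb'
    obtain ⟨w, hw, hw'⟩ := pow_mem B.bb I V hV j β hb'
    have h1 : u ^ i * w ∈ Ideal.span {y} := by
      rw [hyI, ← hij, pow_add]
      exact Ideal.mul_mem_mul (Ideal.pow_mem_pow huI i) hw
    obtain ⟨g, hg⟩ := Ideal.mem_span_singleton'.1 h1
    have h2 : (g : K) * (y : K) = (u : K) ^ i * (w : K) :=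
      congrArg (fun x : 𝓞 K => (x : K)) hg
    have e : algebraMap k K (β : k) * (U ^ i * V ^ j / (y : K)) = (g : K) := by
      rw [← mul_div_assoc, div_eq_iff hy0, h2, ← hw', hu]
      ring
    rw [e]
    exact g.isIntegral_coe
  obtain ⟨y0, hy0', k0⟩ := coef (B.bb ^ 0) B.cc s hs0 c hx ((B.b : 𝓞 k) ^ 0)
    (Ideal.pow_mem_pow hbb 0) (pow_ne_zero 0 hbO) _ (hW 3 0 rfl)
  obtain ⟨y1, hy1', k1⟩ := coef (B.bb ^ 1) B.cc s hs0 c hx ((B.b : 𝓞 k) ^ 1)
    (Ideal.pow_mem_pow hbb 1) (pow_ne_zero 1 hbO) _ (hW 2 1 rfl)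
  obtain ⟨y2, hy2', k2⟩ := coef (B.bb ^ 2) B.cc s hs0 c hx ((B.b : 𝓞 k) ^ 2)
    (Ideal.pow_mem_pow hbb 2) (pow_ne_zero 2 hbO) _ (hW 1 2 rfl)
  obtain ⟨y3, hy3', k3⟩ := coef (B.bb ^ 3) B.cc s hs0 c hx ((B.b : 𝓞 k) ^ 3)
    (Ideal.pow_mem_pow hbb 3) (pow_ne_zero 3 hbO) _ (hW 0 3 rfl)
  rw [pow_zero, one_mul] at k0
  -- the four coefficients
  obtain ⟨o0, ho0, e0⟩ := invI_mul B.cc B.bb (3 * y0) k0 _ hbm
  obtain ⟨o1, e1⟩ := k1 (B.b : 𝓞 k) (by rw [pow_one]; exact hbm)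
  have k2' : ∀ β ∈ B.bb, ∃ o : 𝓞 k, (3 * y2 * (B.b : k)) * (β : k) = (o : k) := by
    intro β hb'
    obtain ⟨o, ho⟩ := k2 (β * (B.b : 𝓞 k)) (by
      have e : B.bb ^ 2 * B.cc = B.bb * (B.bb * B.cc) := by ring
      rw [e]
      exact Ideal.mul_mem_mul hb' hbm)
    refine ⟨o, ?_⟩
    rw [← ho]
    have e : ((β * (B.b : 𝓞 k) : 𝓞 k) : k) = (β : k) * ((B.b : 𝓞 k) : k) := rfl
    rw [e, hbc]
    ring
  have k3' : ∀ β ∈ B.bb ^ 2, ∃ o : 𝓞 k, (3 * y3 * (B.b : k)) * (β : k) = (o : k) := by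
    intro β hb'
    obtain ⟨o, ho⟩ := k3 (β * (B.b : 𝓞 k)) (by
      have e : B.bb ^ 3 * B.cc = B.bb ^ 2 * (B.bb * B.cc) := by ring
      rw [e]
      exact Ideal.mul_mem_mul hb' hbm)
    refine ⟨o, ?_⟩
    rw [← ho]
    have e : ((β * (B.b : 𝓞 k) : 𝓞 k) : k) = (β : k) * ((B.b : 𝓞 k) : k) := rfl
    rw [e, hbc]
    ring
  obtain ⟨o2, ho2, e2⟩ := invI_mul B.bb B.cc _ k2' (B.b : 𝓞 k) (by rw [mul_comm]; exact hbm)
  obtain ⟨o3, ho3, e3⟩ := invI_mul (B.bb ^ 2) (B.cc ^ 2) _ k3' ((B.b : 𝓞 k) ^ 2) (by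
    rw [← mul_pow, mul_comm B.cc B.bb]
    exact Ideal.pow_mem_pow hbm 2)
  have hb2 : (((B.b : 𝓞 k) ^ 2 : 𝓞 k) : k) = (B.b : k) ^ 2 := by
    have e : (((B.b : 𝓞 k) ^ 2 : 𝓞 k) : k) = ((B.b : 𝓞 k) : k) ^ 2 := rfl
    rw [e, hbc]
  rw [hbc] at e0 e1 e2
  rw [hb2] at e3
  have h3k : ((3 : 𝓞 k) : k) = 3 := map_ofNat (algebraMap (𝓞 k) k) 3
  obtain ⟨F, hF⟩ : ∃ F : Q4 (𝓞 k), F = ![(B.b : 𝓞 k) ^ 2 * o0, (B.b : 𝓞 k) ^ 2 * (3 * o1),
    (B.b : 𝓞 k) * (3 * o2), o3] := ⟨_, rfl⟩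
  have f0 : ((F 0 : 𝓞 k) : k) = 3 * (B.b : k) ^ 3 * y0 := by
    have e : ((F 0 : 𝓞 k) : k) = (((B.b : 𝓞 k) ^ 2 : 𝓞 k) : k) * (o0 : k) := by rw [hF]; rfl
    rw [e, hb2, ← e0]
    ring
  have f1 : ((F 1 : 𝓞 k) : k) = 9 * (B.b : k) ^ 3 * y1 := by
    have e : ((F 1 : 𝓞 k) : k) = (((B.b : 𝓞 k) ^ 2 : 𝓞 k) : k) * (((3 : 𝓞 k) : k) * (o1 : k)) := by
      rw [hF]; rfl
    rw [e, hb2, ← e1, h3k]
    ring
  have f2 : ((F 2 : 𝓞 k) : k) = 9 * (B.b : k) ^ 3 * y2 := by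
    have e : ((F 2 : 𝓞 k) : k) = ((B.b : 𝓞 k) : k) * (((3 : 𝓞 k) : k) * (o2 : k)) := by
      rw [hF]; rfl
    rw [e, hbc, ← e2, h3k]
    ring
  have f3 : ((F 3 : 𝓞 k) : k) = 3 * (B.b : k) ^ 3 * y3 := by
    have e : ((F 3 : 𝓞 k) : k) = (o3 : k) := by rw [hF]; rfl
    rw [e, ← e3]
    ring
  have hFOf : FOf B s c (y : K) U V F := by
    intro X Y
    have hg : gval (fun i => ((F i : 𝓞 k) : k)) X Y = 3 * (B.b : k) ^ 3 *
        (y0 * X ^ 3 + 3 * y1 * X ^ 2 * Y + 3 * y2 * X * Y ^ 2 + y3 * Y ^ 3) := by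
      simp only [gval, f0, f1, f2, f3]
      ring
    rw [hg]
    simp only [map_add, map_mul, map_pow, map_div₀, AlgEquiv.commutes, map_ofNat,
      map_natCast] at hy0' hy1' hy2' hy3' ⊢
    linear_combination -3 * (B.b : K) ^ 3 * ((algebraMap k K X) ^ 3 * hy0' +
      3 * (algebraMap k K X) ^ 2 * algebraMap k K Y * hy1' +
      3 * algebraMap k K X * (algebraMap k K Y) ^ 2 * hy2' + (algebraMap k K Y) ^ 3 * hy3')
  refine ⟨F, hFOf, ?_, ?_, ?_, ?_, ?_, ?_⟩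
  · -- no zeros
    intro X Y hXY
    have h1 := hFOf (X : k) (Y : k)
    have h2 : gval (fun i => ((F i : 𝓞 k) : k)) (X : k) (Y : k) = ((gval F X Y : 𝓞 k) : k) := rfl
    have h20 : ((0 : 𝓞 k) : k) = 0 := rfl
    rw [h2, hXY, h20, map_zero, zero_mul] at h1
    have h3 : (3 * (B.b : K) ^ 3) ≠ 0 := mul_ne_zero (by norm_num) (pow_ne_zero 3 hbK)
    have h4 := (mul_eq_zero.1 h1.symm).resolve_left h3
    obtain ⟨hX, hY⟩ := irrI c U V (y : K) (ν : k) hνk hy0 hy (by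
      intro h0
      rw [h0, mul_zero] at hD
      exact mul_ne_zero hνK hs0 hD.symm) hcube (X : k) (Y : k) (sub_eq_zero.1 h4)
    exact ⟨by simpa using hX, by simpa using hY⟩
  · -- the discriminant
    apply RingOfIntegers.coe_injective
    apply inj
    have hcore := (Pool.Agent.LeoK.H32.core (U := U) (V := (B.b : K) * V)
      (U' := c U) (V' := (B.b : K) * c V) hy0 hcy0 hs0 hνK
      (A0 := algebraMap k K y0) (A1 := (B.b : K) * algebraMap k K y1)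
      (A2 := (B.b : K) ^ 2 * algebraMap k K y2) (A3 := (B.b : K) ^ 3 * algebraMap k K y3)
      ?_ ?_ ?_ ?_ hy (by rw [← hD]; ring)).2.2.2
    · have h5 : algebraMap k K ((mm F : 𝓞 k) : k) = 3 ^ 7 * (B.b : K) ^ 12 * (-(
          3 * (algebraMap k K y1) ^ 2 * (algebraMap k K y2) ^ 2 -
          4 * algebraMap k K y0 * (algebraMap k K y2) ^ 3 -
          4 * (algebraMap k K y1) ^ 3 * algebraMap k K y3 -
          (algebraMap k K y0) ^ 2 * (algebraMap k K y3) ^ 2 +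
          6 * algebraMap k K y0 * algebraMap k K y1 * algebraMap k K y2 * algebraMap k K y3)) := by
        have h6 : ((mm F : 𝓞 k) : k) = mm (fun i => ((F i : 𝓞 k) : k)) := by
          change algebraMap (𝓞 k) k (mm F) = mm (fun i => algebraMap (𝓞 k) k (F i))
          simp only [mm, dsc, map_neg, map_add, map_sub, map_mul, map_pow, map_ofNat]
        rw [h6]
        simp only [mm, dsc, f0, f1, f2, f3, map_add, map_sub, map_neg, map_mul, map_pow, map_ofNat,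
          map_natCast]
        ring
      have h7 : algebraMap k K (((B.kap : 𝓞 k) * m : 𝓞 k) : k) =
          3 ^ 7 * (B.b : K) ^ 6 * (s : K) ^ 2 := by
        have h8 : (((B.kap : 𝓞 k) * m : 𝓞 k) : k) = (B.kap : k) * (m : k) := by
          have h9 : (((B.kap : 𝓞 k) * m : 𝓞 k) : k) = ((B.kap : 𝓞 k) : k) * (m : k) := rfl
          rw [h9]
          congr 1
        rw [h8, map_mul, hE.sq, map_mul, map_natCast, map_ofNat, BFr.kap]
        push_cast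
        ring
      rw [h5, h7]
      linear_combination (-3 ^ 7 * (B.b : K) ^ 6) * hcore
    · rw [← hy0']
      simp only [map_mul, map_pow, map_div₀, pow_zero, mul_one]
    · rw [mul_assoc, ← hy1']
      simp only [map_mul, map_pow, map_div₀, pow_one]
      ring
    · rw [mul_assoc, ← hy2']
      simp only [map_mul, map_pow, map_div₀, pow_one]
      ring
    · rw [mul_assoc, ← hy3']
      simp only [map_mul, map_pow, map_div₀, pow_zero, one_mul]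
      ring
  · rw [hF]
    exact Ideal.mul_mem_mul (Ideal.mem_span_singleton_self _) ho0
  · rw [hF]
    exact Ideal.mul_mem_right _ _ (Ideal.mem_span_singleton_self _)
  · rw [hF]
    exact Ideal.mul_mem_mul (Ideal.mem_span_singleton_self _) (Ideal.mul_mem_left _ _ ho2)
  · rw [hF]
    exact ho3

end Pool.Agent.LeoD.H32
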