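import Pool.Agent.LeoD.TowStmts
import Pool.Agent.Helper32_LeoD.Frmi

/-!
Squad LEOD, module FRMI.
-/

set_option autoImplicit false

open NumberField IsDedekindDomain Module
open Pool.Agent.LeoK Pool.Agent.LeoG

namespace Pool.Agent.LeoD.H32

/-- FRMI. -/
theorem frmi : FrmiStmt := by
  intro k K _ _ _ _ _ B m s c hE hx y I ν hν hy hyI hcube U V hU hV hD
  exact frmI B m s c hE hx I y ν hy hyI hcube hν U V hU hV hD

end Pool.Agent.LeoD.H32
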